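import Mathlib
import Pool.Agent.W926.PS.Base

set_option autoImplicit false

/-! Project PS: sorting six points. -/

namespace Pool.Agent.W168.PS

open W926.PS

theorem srt : S_GL → S_SRT := by
  intro hGL r a x hx
  obtain ⟨w, hw, hlt⟩ := hGL r a st0 (fun _ _ => false) (fun _ _ _ _ => rfl)
  set σ : Equiv.Perm (Fin 6) := Tuple.sort (w ∘ x) with hσ
  have hmono : StrictMono ((w ∘ x) ∘ σ) :=
    (Tuple.monotone_sort (w ∘ x)).strictMono_of_injective ((hw.comp hx).comp σ.injective)
  have hne : ∀ i : Fin 5, x (σ i.castSucc) ≠ x (σ i.succ) := by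
    intro i h
    have := σ.injective (hx h)
    exact absurd this (Fin.castSucc_lt_succ (i := i)).ne
  choose p hp using fun i : Fin 5 => exists_FD st0 (hne i)
  refine ⟨σ, p, fun i => ?_⟩
  have h1 : x (σ i.castSucc) (p i).1 (p i).2 = false :=
    (hlt _ _ _ (hp i)).1 (hmono (Fin.castSucc_lt_succ (i := i)))
  refine ⟨hp i, h1, ?_⟩
  have h2 := (hp i).2
  rw [h1] at h2
  simpa using h2.symm

end Pool.Agent.W168.PS
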